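import Mathlib

set_option autoImplicit false

/-!
Power means of the distances from a zero `a` of a polynomial to its critical points:
evaluation at `1/a` and the inequality between arithmetic and geometric means.
-/

open Polynomial MeasureTheory

namespace Pool.Agent.H565.Pm

/-- the polynomial `(X - a) ∏ (X - z_j)` -/
noncomputable def P {m : ℕ} (a : ℝ) (z : Fin m → ℂ) : ℂ[X] :=
  (X - C (a : ℂ)) * ∏ j, (X - C (z j))

lemma P_monic {m : ℕ} (a : ℝ) (z : Fin m → ℂ) : (P a z).Monic :=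
  (monic_X_sub_C _).mul (monic_prod_of_monic _ _ fun j _ => monic_X_sub_C _)

lemma P_natDegree {m : ℕ} (a : ℝ) (z : Fin m → ℂ) : (P a z).natDegree = m + 1 := by
  unfold P
  rw [(monic_X_sub_C _).natDegree_mul (monic_prod_of_monic _ _ fun _ _ => monic_X_sub_C _),
    natDegree_prod_of_monic _ _ fun j _ => monic_X_sub_C _]
  simp [add_comm]

lemma dP_natDegree {m : ℕ} (a : ℝ) (z : Fin m → ℂ) : (derivative (P a z)).natDegree = m := by
  rw [natDegree_derivative, P_natDegree]; simp

lemma dP_lead {m : ℕ} (a : ℝ) (z : Fin m → ℂ) :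
    (derivative (P a z)).leadingCoeff = (m + 1 : ℂ) := by
  rw [leadingCoeff, dP_natDegree, coeff_derivative]
  have h := (P_monic a z)
  rw [Monic, leadingCoeff, P_natDegree] at h
  rw [h]; simp

lemma dP_card {m : ℕ} (a : ℝ) (z : Fin m → ℂ) :
    Multiset.card (derivative (P a z)).roots = m := by
  rw [← (IsAlgClosed.splits (derivative (P a z))).natDegree_eq_card_roots, dP_natDegree]

lemma dP_eq {m : ℕ} (a : ℝ) (z : Fin m → ℂ) :
    derivative (P a z) = C (m + 1 : ℂ) *
      ((derivative (P a z)).roots.map fun w => X - C w).prod := by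
  have h := C_leadingCoeff_mul_prod_multiset_X_sub_C
    (p := derivative (P a z)) (by rw [dP_card, dP_natDegree])
  rw [dP_lead] at h
  exact h.symm

lemma exists_fin {m : ℕ} (s : Multiset ℂ) (h : Multiset.card s = m) :
    ∃ w : Fin m → ℂ, s = Multiset.map w Finset.univ.val := by
  subst h
  refine ⟨fun i => s.toList.get (Fin.cast (by simp) i), ?_⟩
  rw [Fin.univ_val_map]
  conv_lhs => rw [← Multiset.coe_toList s]
  congr 1
  apply List.ext_get
  · simp
  · intro n h1 h2
    simp

/-- the critical points as a family -/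
lemma exists_w {m : ℕ} (a : ℝ) (z : Fin m → ℂ) :
    ∃ w : Fin m → ℂ, (derivative (P a z)).roots = Multiset.map w Finset.univ.val ∧
      ∀ x : ℂ, (derivative (P a z)).eval x = (m + 1 : ℂ) * ∏ k, (x - w k) := by
  obtain ⟨w, hw⟩ := exists_fin _ (dP_card a z)
  refine ⟨w, hw, fun x => ?_⟩
  have h : ((Multiset.map w Finset.univ.val).map fun w => X - C w).prod
      = ∏ k, (X - C (w k)) := by
    rw [Multiset.map_map]; rfl
  rw [dP_eq, hw, h, eval_mul, eval_C, eval_prod]
  simp

lemma dP_at {m : ℕ} (a : ℝ) (z : Fin m → ℂ) :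
    (derivative (P a z)).eval (a : ℂ) = ∏ j, ((a : ℂ) - z j) := by
  unfold P
  simp [derivative_mul, eval_prod]

lemma norm_cmp {a : ℝ} (ha0 : 0 ≤ a) (ha1 : a ≤ 1) {z : ℂ} (hz : ‖z‖ ≤ 1) :
    ‖(a : ℂ) - z‖ ≤ ‖1 - a * z‖ := by
  have h1 : ‖(a : ℂ) - z‖ ^ 2 = a ^ 2 - 2 * a * z.re + (z.re ^ 2 + z.im ^ 2) := by
    rw [Complex.sq_norm, Complex.normSq_apply]; simp; ring
  have h2 : ‖1 - a * z‖ ^ 2 = 1 - 2 * a * z.re + a ^ 2 * (z.re ^ 2 + z.im ^ 2) := by
    rw [Complex.sq_norm, Complex.normSq_apply]; simp; ring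
  have h3 : z.re ^ 2 + z.im ^ 2 ≤ 1 := by
    have : ‖z‖ ^ 2 = z.re ^ 2 + z.im ^ 2 := by
      rw [Complex.sq_norm, Complex.normSq_apply]; ring
    rw [← this]
    nlinarith [norm_nonneg z]
  refine abs_le_of_sq_le_sq' ?_ (norm_nonneg _) |>.2
  rw [h1, h2]
  nlinarith [mul_nonneg (show (0:ℝ) ≤ 1 - a ^ 2 by nlinarith) (sub_nonneg.2 h3)]

/-- the fundamental identity -/
lemma ident {m : ℕ} {a : ℝ} (ha0 : 0 ≤ a) (z w : Fin m → ℂ)
    (hw : ∀ x : ℂ, (derivative (P a z)).eval x = (m + 1 : ℂ) * ∏ k, (x - w k)) (ha1 : a < 1) :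
    ∏ j, (1 - (a : ℂ) * z j) =
      (m + 1 : ℂ) * ∫ t in (0:ℝ)..1, ∏ k, ((a : ℂ) * (a - w k) + t * (1 - a ^ 2)) := by
  rcases ha0.eq_or_lt with h0 | h0
  · subst h0
    simp only [Complex.ofReal_zero, zero_mul, sub_zero, Finset.prod_const_one, zero_add, ne_eq,
      OfNat.ofNat_ne_zero, not_false_eq_true, zero_pow, mul_one, Finset.prod_const,
      Finset.card_univ, Fintype.card_fin]
    have : ∫ t in (0:ℝ)..1, (t : ℂ) ^ m = 1 / (m + 1) := by
      have h := integral_pow (a := 0) (b := 1) m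
      rw [show (∫ t in (0:ℝ)..1, (t : ℂ) ^ m) = ((∫ t in (0:ℝ)..1, t ^ m : ℝ) : ℂ) by
        rw [← intervalIntegral.integral_ofReal]; simp]
      rw [h]; simp
    rw [this]
    have : (m + 1 : ℂ) ≠ 0 := by exact_mod_cast Nat.succ_ne_zero m
    field_simp
  · have hac : (a : ℂ) ≠ 0 := by exact_mod_cast h0.ne'
    set L : ℂ := ((a : ℂ)⁻¹ - a) with hL
    have hLne : L ≠ 0 := by
      have : L = ((a⁻¹ - a : ℝ) : ℂ) := by rw [hL]; push_cast; ring
      rw [this]
      have h1 : 1 < a⁻¹ := (one_lt_inv₀ h0).2 ha1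
      exact_mod_cast (sub_pos.2 (ha1.trans h1)).ne'
    have hd : ∀ t ∈ Set.uIcc (0:ℝ) 1, HasDerivAt (fun t : ℝ => (P a z).eval (a + t * L))
        (L * (derivative (P a z)).eval (a + t * L)) t := by
      intro t _
      have h1 : HasDerivAt (fun s : ℂ => (P a z).eval (a + s * L))
          ((derivative (P a z)).eval (a + (t:ℂ) * L) * L) (t : ℂ) := by
        have h2 : HasDerivAt (fun s : ℂ => (a : ℂ) + s * L) L (t : ℂ) := by
          simpa using ((hasDerivAt_id (t : ℂ)).mul_const L).const_add (a : ℂ)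
        exact ((P a z).hasDerivAt _).comp (t : ℂ) h2
      have h3 := h1.comp_ofReal
      rw [mul_comm L]
      exact h3
    have hint : IntervalIntegrable (fun t : ℝ => L * (derivative (P a z)).eval (a + t * L))
        volume 0 1 := by
      apply Continuous.intervalIntegrable
      exact continuous_const.mul ((derivative (P a z)).continuous.comp (by fun_prop))
    have hF := intervalIntegral.integral_eq_sub_of_hasDerivAt hd hint
    simp only [Complex.ofReal_one, one_mul, Complex.ofReal_zero, zero_mul, add_zero] at hF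
    have e1 : (a : ℂ) + L = (a : ℂ)⁻¹ := by rw [hL]; ring
    rw [e1] at hF
    have e2 : (P a z).eval (a : ℂ) = 0 := by unfold P; simp
    have e3 : (P a z).eval ((a : ℂ)⁻¹) = L * ∏ j, ((a : ℂ)⁻¹ - z j) := by
      unfold P; simp [eval_prod, hL]
    rw [e2, e3, sub_zero, intervalIntegral.integral_const_mul] at hF
    have hF' := mul_left_cancel₀ hLne hF
    have hpow : (a : ℂ) ^ m = ∏ _k : Fin m, (a : ℂ) := by simp
    have e4 : ∏ j, (1 - (a : ℂ) * z j) = (a : ℂ) ^ m * ∏ j, ((a : ℂ)⁻¹ - z j) := by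
      rw [hpow, ← Finset.prod_mul_distrib]
      refine Finset.prod_congr rfl fun j _ => ?_
      field_simp
    rw [e4, ← hF', ← intervalIntegral.integral_const_mul, ← intervalIntegral.integral_const_mul]
    apply intervalIntegral.integral_congr
    intro t _
    simp only []
    rw [hw, mul_left_comm]
    congr 1
    rw [hpow, ← Finset.prod_mul_distrib]
    refine Finset.prod_congr rfl fun k _ => ?_
    rw [hL]
    field_simp
    ring

end Pool.Agent.H565.Pm
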