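import Pool.Agent.H565.Pm.Basic

set_option autoImplicit false

open Polynomial MeasureTheory

namespace Pool.Agent.H565.Pm

lemma prod_le_mean {m : ℕ} (hm : 0 < m) (x : Fin m → ℝ) (hx : ∀ k, 0 ≤ x k) :
    ∏ k, x k ≤ ((∑ k, x k) / m) ^ m := by
  have hm' : (0 : ℝ) < m := by exact_mod_cast hm
  have h := Real.geom_mean_le_arith_mean Finset.univ (fun _ => (1:ℝ)) x (fun _ _ => zero_le_one)
    (by simpa using hm) (fun k _ => hx k)
  simp only [Real.rpow_one, Finset.sum_const, Finset.card_univ, Fintype.card_fin, nsmul_eq_mul,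
    mul_one, one_mul] at h
  have hp : 0 ≤ ∏ k, x k := Finset.prod_nonneg fun k _ => hx k
  calc ∏ k, x k = ((∏ k, x k) ^ ((m : ℝ)⁻¹)) ^ m := by
        rw [← Real.rpow_natCast, ← Real.rpow_mul hp, inv_mul_cancel₀ hm'.ne', Real.rpow_one]
    _ ≤ ((∑ k, x k) / m) ^ m := pow_le_pow_left₀ (Real.rpow_nonneg hp _) h m

lemma main_ineq {m : ℕ} (hm : 0 < m) {a : ℝ} (ha0 : 0 ≤ a) (ha1 : a < 1) (z w : Fin m → ℂ)
    (hz : ∀ j, ‖z j‖ ≤ 1)
    (hw : ∀ x : ℂ, (derivative (P a z)).eval x = (m + 1 : ℂ) * ∏ k, (x - w k))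
    (hne : ∀ k, w k ≠ a) :
    1 ≤ ∫ t in (0:ℝ)..1, (a + t * (1 - a ^ 2) * ((∑ k, ‖w k - (a : ℂ)‖⁻¹) / m)) ^ m := by
  have hm' : (0 : ℝ) < m := by exact_mod_cast hm
  have hK : 0 ≤ 1 - a ^ 2 := by nlinarith
  set d : Fin m → ℝ := fun k => ‖w k - (a : ℂ)‖ with hd
  have hdpos : ∀ k, 0 < d k := fun k => norm_pos_iff.2 (sub_ne_zero.2 (hne k))
  have hD : 0 < ∏ k, d k := Finset.prod_pos fun k _ => hdpos k
  have h1 : (m + 1 : ℝ) * ∏ k, d k ≤ (m + 1 : ℝ) *
      ∫ t in (0:ℝ)..1, ∏ k, (a * d k + t * (1 - a ^ 2)) := by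
    have e1 : (m + 1 : ℝ) * ∏ k, d k = ∏ j, ‖(a : ℂ) - z j‖ := by
      rw [← norm_prod Finset.univ (fun j => (a : ℂ) - z j), ← dP_at, hw, norm_mul, norm_prod]
      congr 1
      · have : (m + 1 : ℂ) = ((m + 1 : ℝ) : ℂ) := by push_cast; rfl
        rw [this, Complex.norm_real, Real.norm_eq_abs, abs_of_pos (by positivity)]
      · refine Finset.prod_congr rfl fun k _ => ?_
        rw [hd]; exact norm_sub_rev _ _
    have e2 : ∏ j, ‖(a : ℂ) - z j‖ ≤ ∏ j, ‖1 - (a : ℂ) * z j‖ :=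
      Finset.prod_le_prod (fun _ _ => norm_nonneg _) fun j _ => norm_cmp ha0 ha1.le (hz j)
    have e3 : ∏ j, ‖1 - (a : ℂ) * z j‖ ≤ (m + 1 : ℝ) *
        ∫ t in (0:ℝ)..1, ∏ k, (a * d k + t * (1 - a ^ 2)) := by
      rw [← norm_prod, ident ha0 z w hw ha1, norm_mul]
      have : ‖(m + 1 : ℂ)‖ = (m + 1 : ℝ) := by
        have : (m + 1 : ℂ) = ((m + 1 : ℝ) : ℂ) := by push_cast; rfl
        rw [this, Complex.norm_real, Real.norm_eq_abs, abs_of_pos (by positivity)]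
      rw [this]
      refine mul_le_mul_of_nonneg_left ?_ (by positivity)
      refine (intervalIntegral.norm_integral_le_integral_norm zero_le_one).trans ?_
      refine intervalIntegral.integral_mono_on zero_le_one ?_ ?_ ?_
      · apply Continuous.intervalIntegrable
        fun_prop
      · apply Continuous.intervalIntegrable
        fun_prop
      · intro t ht
        rw [norm_prod]
        refine Finset.prod_le_prod (fun _ _ => norm_nonneg _) fun k _ => ?_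
        refine (norm_add_le _ _).trans ?_
        have e5 : ‖(a : ℂ) * (a - w k)‖ = a * d k := by
          rw [norm_mul, Complex.norm_real, Real.norm_eq_abs, abs_of_nonneg ha0, norm_sub_rev]
        have e6 : ‖(t : ℂ) * (1 - (a : ℂ) ^ 2)‖ = t * (1 - a ^ 2) := by
          have : (t : ℂ) * (1 - (a : ℂ) ^ 2) = ((t * (1 - a ^ 2) : ℝ) : ℂ) := by push_cast; ring
          rw [this, Complex.norm_real, Real.norm_eq_abs, abs_of_nonneg (mul_nonneg ht.1 hK)]
        rw [e5, e6]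
    rw [e1]; exact e2.trans e3
  have h2 : ∏ k, d k ≤ ∫ t in (0:ℝ)..1, ∏ k, (a * d k + t * (1 - a ^ 2)) :=
    le_of_mul_le_mul_left h1 (by positivity)
  have h3 : ∀ t : ℝ, ∏ k, (a * d k + t * (1 - a ^ 2)) =
      (∏ k, d k) * ∏ k, (a + t * (1 - a ^ 2) * (d k)⁻¹) := by
    intro t
    rw [← Finset.prod_mul_distrib]
    refine Finset.prod_congr rfl fun k _ => ?_
    have := (hdpos k).ne'
    field_simp
  simp_rw [h3] at h2
  rw [intervalIntegral.integral_const_mul] at h2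
  have h4 : 1 ≤ ∫ t in (0:ℝ)..1, ∏ k, (a + t * (1 - a ^ 2) * (d k)⁻¹) := by
    by_contra hc
    rw [not_le] at hc
    have := mul_lt_mul_of_pos_left hc hD
    linarith
  refine h4.trans ?_
  refine intervalIntegral.integral_mono_on zero_le_one ?_ ?_ ?_
  · apply Continuous.intervalIntegrable
    fun_prop
  · apply Continuous.intervalIntegrable
    fun_prop
  · intro t ht
    have h5 := prod_le_mean hm (fun k => a + t * (1 - a ^ 2) * (d k)⁻¹)
      (fun k => add_nonneg ha0 (mul_nonneg (mul_nonneg ht.1 hK) (inv_nonneg.2 (hdpos k).le)))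
    refine h5.trans (le_of_eq ?_)
    congr 1
    rw [Finset.sum_add_distrib, ← Finset.mul_sum]
    simp only [Finset.sum_const, Finset.card_univ, Fintype.card_fin, nsmul_eq_mul]
    field_simp
    rfl

/-- `a < 1` -/
lemma lt_one_case {m : ℕ} (hm : 0 < m) {a : ℝ} (ha0 : 0 ≤ a) (ha1 : a < 1) (z w : Fin m → ℂ)
    (hz : ∀ j, ‖z j‖ ≤ 1)
    (hw : ∀ x : ℂ, (derivative (P a z)).eval x = (m + 1 : ℂ) * ∏ k, (x - w k))
    (hne : ∀ k, w k ≠ a)
    (hH : (1 + a - a ^ 2) ^ (m + 1) - a ^ (m + 1) < (m + 1) * (1 - a ^ 2)) :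
    (m : ℝ) < ∑ k, ‖w k - (a : ℂ)‖⁻¹ := by
  by_contra hc
  rw [not_lt] at hc
  have hm' : (0 : ℝ) < m := by exact_mod_cast hm
  have hK : 0 < 1 - a ^ 2 := by nlinarith
  have h1 := main_ineq hm ha0 ha1 z w hz hw hne
  set s : ℝ := (∑ k, ‖w k - (a : ℂ)‖⁻¹) / m with hs
  have hs1 : s ≤ 1 := (div_le_one hm').2 hc
  have hs0 : 0 ≤ s := div_nonneg (Finset.sum_nonneg fun _ _ => inv_nonneg.2 (norm_nonneg _)) hm'.le
  have h2 : ∫ t in (0:ℝ)..1, (a + t * (1 - a ^ 2) * s) ^ m ≤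
      ∫ t in (0:ℝ)..1, (a + t * (1 - a ^ 2)) ^ m := by
    refine intervalIntegral.integral_mono_on zero_le_one ?_ ?_ ?_
    · apply Continuous.intervalIntegrable
      fun_prop
    · apply Continuous.intervalIntegrable
      fun_prop
    · intro t ht
      have ht0 : 0 ≤ t := ht.1
      refine pow_le_pow_left₀ (add_nonneg ha0 (mul_nonneg (mul_nonneg ht0 hK.le) hs0)) ?_ m
      nlinarith [mul_nonneg ht0 hK.le]
  have h3 : (m + 1 : ℝ) * (1 - a ^ 2) * ∫ t in (0:ℝ)..1, (a + t * (1 - a ^ 2)) ^ m =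
      (1 + a - a ^ 2) ^ (m + 1) - a ^ (m + 1) := by
    have hd : ∀ t ∈ Set.uIcc (0:ℝ) 1, HasDerivAt (fun t : ℝ => (a + t * (1 - a ^ 2)) ^ (m + 1))
        ((m + 1 : ℝ) * (1 - a ^ 2) * (a + t * (1 - a ^ 2)) ^ m) t := by
      intro t _
      have h := (((hasDerivAt_id t).mul_const (1 - a ^ 2)).const_add a).pow (m + 1)
      simp only [id, Nat.add_sub_cancel, one_mul] at h
      exact h.congr_deriv (by push_cast; ring)
    have hi : IntervalIntegrable
        (fun t : ℝ => (m + 1 : ℝ) * (1 - a ^ 2) * (a + t * (1 - a ^ 2)) ^ m) volume 0 1 := by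
      apply Continuous.intervalIntegrable
      fun_prop
    have := intervalIntegral.integral_eq_sub_of_hasDerivAt hd hi
    rw [intervalIntegral.integral_const_mul] at this
    rw [this, zero_mul, add_zero]
    congr 2
    ring
  have h4 : (m + 1 : ℝ) * (1 - a ^ 2) ≤ (1 + a - a ^ 2) ^ (m + 1) - a ^ (m + 1) := by
    rw [← h3]
    have : 1 ≤ ∫ t in (0:ℝ)..1, (a + t * (1 - a ^ 2)) ^ m := h1.trans h2
    have h5 : 0 < (m + 1 : ℝ) * (1 - a ^ 2) := by positivity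
    nlinarith
  linarith

/-- `a = 1`, for every degree -/
lemma one_case {m : ℕ} (z w : Fin m → ℂ) (hz : ∀ j, ‖z j‖ ≤ 1)
    (hr : (derivative (P 1 z)).roots = Multiset.map w Finset.univ.val)
    (hw : ∀ x : ℂ, (derivative (P 1 z)).eval x = (m + 1 : ℂ) * ∏ k, (x - w k))
    (hne : ∀ k, w k ≠ (1 : ℝ)) :
    (m : ℝ) ≤ ∑ k, ‖w k - ((1 : ℝ) : ℂ)‖⁻¹ := by
  have hP1 : (derivative (P 1 z)).eval (((1:ℝ) : ℂ)) ≠ 0 := by
    rw [hw]
    refine mul_ne_zero (by exact_mod_cast Nat.succ_ne_zero m) (Finset.prod_ne_zero_iff.2 ?_)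
    intro k _
    exact sub_ne_zero.2 (hne k).symm
  have hz1 : ∀ j, ((1:ℝ) : ℂ) - z j ≠ 0 := by
    rw [dP_at] at hP1
    intro j
    exact (Finset.prod_ne_zero_iff.1 hP1) j (Finset.mem_univ j)
  set q : ℂ[X] := ∏ j, (X - C (z j)) with hq
  have hqe : q.eval (((1:ℝ) : ℂ)) ≠ 0 := by
    rw [hq, eval_prod]
    refine Finset.prod_ne_zero_iff.2 fun j _ => ?_
    simpa using hz1 j
  have hqr : q.roots = Multiset.map z Finset.univ.val := by
    rw [hq, roots_prod _ _ (Finset.prod_ne_zero_iff.2 fun j _ => X_sub_C_ne_zero _)]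
    simp [roots_X_sub_C, Multiset.bind_singleton]
  have h1 := (IsAlgClosed.splits (derivative (P 1 z))).eval_derivative_div_eval_of_ne_zero hP1
  have h2 := (IsAlgClosed.splits q).eval_derivative_div_eval_of_ne_zero hqe
  rw [hr] at h1
  rw [hqr] at h2
  simp only [Multiset.map_map, Function.comp_def] at h1 h2
  change _ = ∑ k, 1 / (((1:ℝ) : ℂ) - w k) at h1
  change _ = ∑ j, 1 / (((1:ℝ) : ℂ) - z j) at h2
  have h3 : (derivative (derivative (P 1 z))).eval (((1:ℝ) : ℂ)) =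
      2 * (derivative q).eval (((1:ℝ) : ℂ)) := by
    have : P 1 z = (X - C ((1:ℝ) : ℂ)) * q := rfl
    rw [this]
    simp only [derivative_mul, derivative_sub, derivative_X, derivative_C, sub_zero, one_mul,
      derivative_add, eval_add, eval_mul, eval_sub, eval_X, eval_C, sub_self, zero_mul, add_zero]
    ring
  have h4 : (derivative (P 1 z)).eval (((1:ℝ) : ℂ)) = q.eval (((1:ℝ) : ℂ)) := by
    rw [dP_at, hq, eval_prod]; simp
  rw [h3, h4, mul_div_assoc, h2] at h1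
  have h5 : ∀ j, (1/2 : ℝ) ≤ (1 / (((1:ℝ) : ℂ) - z j)).re := by
    intro j
    have hn : 0 < Complex.normSq (((1:ℝ) : ℂ) - z j) := Complex.normSq_pos.2 (hz1 j)
    rw [one_div (((1:ℝ) : ℂ) - z j), Complex.inv_re, le_div_iff₀ hn]
    have h6 : (z j).re ^ 2 + (z j).im ^ 2 ≤ 1 := by
      have : ‖z j‖ ^ 2 = (z j).re ^ 2 + (z j).im ^ 2 := by
        rw [Complex.sq_norm, Complex.normSq_apply]; ring
      rw [← this]
      nlinarith [norm_nonneg (z j), hz j]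
    rw [Complex.normSq_apply]
    simp
    nlinarith
  have h6 : (m : ℝ) ≤ (∑ k, 1 / (((1:ℝ) : ℂ) - w k)).re := by
    rw [← h1, Complex.mul_re]
    simp only [Complex.re_ofNat, Complex.im_ofNat, zero_mul, sub_zero]
    rw [Complex.re_sum]
    have : ∑ _j : Fin m, (1/2 : ℝ) ≤ ∑ j, (1 / (((1:ℝ) : ℂ) - z j)).re :=
      Finset.sum_le_sum fun j _ => h5 j
    simp only [Finset.sum_const, Finset.card_univ, Fintype.card_fin, nsmul_eq_mul] at this
    linarith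
  refine h6.trans ?_
  rw [Complex.re_sum]
  refine Finset.sum_le_sum fun k _ => ?_
  refine (Complex.re_le_norm _).trans (le_of_eq ?_)
  rw [norm_div, norm_one, one_div, norm_sub_rev]

/-- numerical condition for `1 ≤ m ≤ 4` -/
lemma cond_small {m : ℕ} (hm1 : 1 ≤ m) (hm : m ≤ 4) {a : ℝ} (ha0 : 0 ≤ a) (ha1 : a < 1) :
    (1 + a - a ^ 2) ^ (m + 1) - a ^ (m + 1) < (m + 1) * (1 - a ^ 2) := by
  obtain ⟨s, rfl⟩ : ∃ s, a = 1 - s := ⟨1 - a, by ring⟩
  have hs0 : 0 < s := by linarith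
  have hs1 : s ≤ 1 := by linarith
  interval_cases m
  · have : 0 < s ^ 3 * (2 - s) := mul_pos (by positivity) (by linarith)
    norm_num; nlinarith
  · have : 0 < s ^ 3 * (4 - 3 * s ^ 2 + s ^ 3) := by
      refine mul_pos (by positivity) ?_
      nlinarith [pow_pos hs0 3]
    norm_num; nlinarith
  · have h : 0 < 4 + 6 * s - 8 * s ^ 2 - 2 * s ^ 3 + 4 * s ^ 4 - s ^ 5 := by
      nlinarith [pow_pos hs0 3, mul_nonneg (pow_nonneg hs0.le 4) (sub_nonneg.2 hs1),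
        mul_nonneg hs0.le (sub_nonneg.2 hs1), mul_nonneg (pow_nonneg hs0.le 2) (sub_nonneg.2 hs1)]
    have : 0 < s ^ 3 * (4 + 6 * s - 8 * s ^ 2 - 2 * s ^ 3 + 4 * s ^ 4 - s ^ 5) :=
      mul_pos (by positivity) h
    norm_num; nlinarith
  · have h : 0 < 20 - 12 * s - 15 * s ^ 2 + 10 * s ^ 3 + 5 * s ^ 4 - 5 * s ^ 5 + s ^ 6 := by
      nlinarith [pow_pos hs0 6, mul_nonneg (pow_nonneg hs0.le 4) (sub_nonneg.2 hs1),
        mul_nonneg hs0.le (sub_nonneg.2 hs1), mul_nonneg (pow_nonneg hs0.le 2) (sub_nonneg.2 hs1)]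
    have : 0 < s ^ 4 *
        (20 - 12 * s - 15 * s ^ 2 + 10 * s ^ 3 + 5 * s ^ 4 - 5 * s ^ 5 + s ^ 6) :=
      mul_pos (by positivity) h
    norm_num; nlinarith

lemma sq_le {m : ℕ} (x : Fin m → ℝ) (hm : 0 < m) :
    (∑ k, x k) ^ 2 ≤ m * ∑ k, x k ^ 2 := by
  have := sq_sum_le_card_mul_sum_sq (s := (Finset.univ : Finset (Fin m))) (f := x)
  simpa using this

/-- from exponent `-1` to exponent `-2` -/
lemma to_sq_le {m : ℕ} (hm : 0 < m) (x : Fin m → ℝ) (h : (m : ℝ) ≤ ∑ k, x k) :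
    (m : ℝ) ≤ ∑ k, x k ^ 2 := by
  have hm' : (0 : ℝ) < m := by exact_mod_cast hm
  have h1 := sq_le x hm
  nlinarith

lemma to_sq_lt {m : ℕ} (hm : 0 < m) (x : Fin m → ℝ) (h : (m : ℝ) < ∑ k, x k) :
    (m : ℝ) < ∑ k, x k ^ 2 := by
  have hm' : (0 : ℝ) < m := by exact_mod_cast hm
  have h1 := sq_le x hm
  nlinarith

end Pool.Agent.H565.Pm
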